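import Pool.Agent.W902.C6.Stm

set_option autoImplicit false

namespace Pool.Agent.W382.C6.Read

open Pool.Agent.W902.C6 Pool.Agent.H800R3

theorem sort_map (P P' : Finset ℝ) (F : ℝ → ℝ) (hF : ∀ x ∈ P, ∀ y ∈ P, x < y → F x < F y)
    (h1 : ∀ x ∈ P, F x ∈ P') (h2 : ∀ y ∈ P', ∃ x ∈ P, F x = y) :
    (P.sort (· ≤ ·)).map F = P'.sort (· ≤ ·) := by
  have e1 : (P.sort (· ≤ ·)).Pairwise (· < ·) := (Finset.sortedLT_sort P).pairwise
  have e2 : ((P.sort (· ≤ ·)).map F).Pairwise (· < ·) := by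
    rw [List.pairwise_map]
    refine e1.imp_of_mem ?_
    intro a b ha hb hab
    rw [Finset.mem_sort] at ha hb
    exact hF a ha b hb hab
  refine e2.sortedLT.eq_of_mem_iff (Finset.sortedLT_sort P') ?_
  intro a
  rw [List.mem_map, Finset.mem_sort]
  constructor
  · rintro ⟨x, hx, rfl⟩
    rw [Finset.mem_sort] at hx
    exact h1 x hx
  · intro ha
    obtain ⟨x, hx, rfl⟩ := h2 a ha
    exact ⟨x, (Finset.mem_sort _).2 hx, rfl⟩

theorem sg_inv (t : ℝ) : SignType.sign t⁻¹ = SignType.sign t := by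
  rcases lt_trichotomy t 0 with h | h | h
  · rw [sign_neg h, sign_neg (inv_lt_zero.2 h)]
  · subst h; simp
  · rw [sign_pos h, sign_pos (inv_pos.2 h)]

theorem mono_sign {A : Finset ℝ} {f : ℝ → ℝ} (hf : ∀ s ∈ A, ∀ s' ∈ A, s < s' → f s < f s')
    {a b : ℝ} (ha : a ∈ A) (hb : b ∈ A) : SignType.sign (f a - f b) = SignType.sign (a - b) := by
  rcases lt_trichotomy a b with h | h | h
  · rw [sign_neg (sub_neg.2 h), sign_neg (sub_neg.2 (hf a ha b hb h))]
  · subst h; simp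
  · rw [sign_pos (sub_pos.2 h), sign_pos (sub_pos.2 (hf b hb a ha h))]

theorem sign_lt {x y x' y' : ℝ} (h : SignType.sign (x' - y') = SignType.sign (x - y)) (hxy : x < y) :
    x' < y' := by
  rw [sign_neg (sub_neg.2 hxy)] at h
  exact sub_neg.1 (sign_eq_neg_one_iff.1 h)

theorem sign_eq {x y x' y' : ℝ} (h : SignType.sign (x' - y') = SignType.sign (x - y)) (hxy : x = y) :
    x' = y' := by
  rw [hxy, sub_self, sign_zero] at h
  exact sub_eq_zero.1 (sign_eq_zero_iff.1 h)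

theorem neg_one_le {x : ℝ} (h : 1 ≤ x) {y : ℝ}
    (hs : SignType.sign (y - 1) = SignType.sign (x - 1)) : 1 ≤ y := by
  by_contra hy
  push Not at hy
  rw [sign_neg (sub_neg.2 hy)] at hs
  have := sign_eq_neg_one_iff.1 hs.symm
  linarith

section
variable {A T A' T' : Finset ℝ} {f h : ℝ → ℝ}

theorem mem_pos {A T : Finset ℝ} {x : ℝ} : x ∈ posns A T ↔ x ∈ A ∨ ∃ t ∈ T, t⁻¹ = x := by
  unfold posns
  simp

/-- minimum goes to minimum -/
theorem map_min (h1 : ∀ s ∈ A, f s ∈ A') (h2 : ∀ s' ∈ A', ∃ s ∈ A, f s = s')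
    (h3 : ∀ s ∈ A, ∀ s' ∈ A, s < s' → f s < f s') {a a' : ℝ} (ha : a ∈ A) (ham : ∀ s ∈ A, a ≤ s)
    (ha' : a' ∈ A') (ham' : ∀ s ∈ A', a' ≤ s) : f a = a' := by
  obtain ⟨s, hs, hs'⟩ := h2 a' ha'
  have e1 := ham s hs
  have e2 := ham' _ (h1 a ha)
  rcases eq_or_lt_of_le e1 with h | h
  · rw [h, hs']
  · have := h3 a ha s hs h
    rw [hs'] at this
    linarith

theorem map_max (h1 : ∀ s ∈ A, f s ∈ A') (h2 : ∀ s' ∈ A', ∃ s ∈ A, f s = s')
    (h3 : ∀ s ∈ A, ∀ s' ∈ A, s < s' → f s < f s') {a a' : ℝ} (ha : a ∈ A) (ham : ∀ s ∈ A, s ≤ a)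
    (ha' : a' ∈ A') (ham' : ∀ s ∈ A', s ≤ a') : f a = a' := by
  obtain ⟨s, hs, hs'⟩ := h2 a' ha'
  have e1 := ham s hs
  have e2 := ham' _ (h1 a ha)
  rcases eq_or_lt_of_le e1 with h | h
  · rw [← h, hs']
  · have := h3 s hs a ha h
    rw [hs'] at this
    linarith

end

theorem word_eq {A T A' T' : Finset ℝ} (F : ℝ → ℝ)
    (hs : ∀ x ∈ posns A T, ∀ y ∈ posns A T, SignType.sign (F x - F y) = SignType.sign (x - y))
    (hm : ∀ x ∈ posns A T, F x ∈ posns A' T') (ho : ∀ y ∈ posns A' T', ∃ x ∈ posns A T, F x = y)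
    (hl : ∀ x ∈ posns A T, lett A' T' (F x) = lett A T x) (I : Set ℝ)
    (hI : ∀ x ∈ posns A T, F x ∈ I ↔ x ∈ I) : word A T I = word A' T' I := by
  classical
  unfold word
  have e := sort_map ((posns A T).filter (fun x => x ∈ I)) ((posns A' T').filter (fun x => x ∈ I)) F
    (fun x hx y hy hxy => sign_lt (hs x (Finset.mem_filter.1 hx).1 y (Finset.mem_filter.1 hy).1) hxy)
    (fun x hx => by
      rw [Finset.mem_filter] at hx ⊢
      exact ⟨hm x hx.1, (hI x hx.1).2 hx.2⟩)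
    (fun y hy => by
      rw [Finset.mem_filter] at hy
      obtain ⟨x, hx, rfl⟩ := ho y hy.1
      exact ⟨x, Finset.mem_filter.2 ⟨hx, (hI x hx).1 hy.2⟩, rfl⟩)
  rw [← e, List.map_map]
  refine List.map_congr_left ?_
  intro x hx
  rw [Finset.mem_sort, Finset.mem_filter] at hx
  exact (hl x hx.1).symm

theorem main : S_read := by
  classical
  intro A T A' T' hc hc' hiso
  obtain ⟨hA0, hT0, ⟨s₀, hs₀, hs₀n, hs₀m, hs₀t⟩, ⟨t₀, ht₀, ht₀p, ht₀m, ht₀s⟩⟩ := hc
  obtain ⟨hA0', hT0', ⟨s₁, hs₁, hs₁n, hs₁m, hs₁t⟩, ⟨t₁, ht₁, ht₁p, ht₁m, ht₁s⟩⟩ := hc'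
  obtain ⟨f, h, f1, f2, h1, h2, f3, h3, hst, hf1, hh1⟩ := hiso
  have ef : f s₀ = s₁ := map_min f1 f2 f3 hs₀ hs₀m hs₁ hs₁m
  have eh : h t₀ = t₁ := map_max h1 h2 h3 ht₀ ht₀m ht₁ ht₁m
  -- signs of `h t`
  have sgT : ∀ t ∈ T, SignType.sign (h t) = SignType.sign t := by
    intro t ht
    have hne : t ≠ 0 := fun e => hT0 (e ▸ ht)
    have hne' : h t ≠ 0 := fun e => hT0' (e ▸ h1 t ht)
    have hs := hst s₀ hs₀ t ht
    rw [ef] at hs
    rcases lt_or_gt_of_ne hne with h' | h'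
    · have := neg_one_le (hs₀t t ht h') hs
      have hlt : h t < 0 := by
        by_contra hc
        push Not at hc
        nlinarith
      rw [sign_neg h', sign_neg hlt]
    · have hlt : s₀ * t - 1 < 0 := by nlinarith
      rw [sign_neg hlt] at hs
      have h5 := sign_eq_neg_one_iff.1 hs
      have hgt : 0 < h t := by
        rcases lt_or_gt_of_ne hne' with h6 | h6
        · have := hs₁t (h t) (h1 t ht) h6
          linarith
        · exact h6
      rw [sign_pos h', sign_pos hgt]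
  have sgA : ∀ s ∈ A, SignType.sign (f s) = SignType.sign s := by
    intro s hs
    have hne : s ≠ 0 := fun e => hA0 (e ▸ hs)
    have hne' : f s ≠ 0 := fun e => hA0' (e ▸ f1 s hs)
    have hs2 := hst s hs t₀ ht₀
    rw [eh] at hs2
    rcases lt_or_gt_of_ne hne with h' | h'
    · have hlt : s * t₀ - 1 < 0 := by nlinarith
      rw [sign_neg hlt] at hs2
      have h5 := sign_eq_neg_one_iff.1 hs2
      have hgt : f s < 0 := by
        rcases lt_or_gt_of_ne hne' with h6 | h6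
        · exact h6
        · have := ht₁s (f s) (f1 s hs) h6
          linarith
      rw [sign_neg h', sign_neg hgt]
    · have := neg_one_le (ht₀s s hs h') hs2
      have hgt : 0 < f s := by
        by_contra hc
        push Not at hc
        nlinarith
      rw [sign_pos h', sign_pos hgt]
  -- the map of positions
  set F : ℝ → ℝ := fun x => if x ∈ A then f x else (h x⁻¹)⁻¹ with hF
  have FA : ∀ s ∈ A, F s = f s := fun s hs => if_pos hs
  have FT : ∀ t ∈ T, F t⁻¹ = (h t)⁻¹ := by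
    intro t ht
    have hne : t ≠ 0 := fun e => hT0 (e ▸ ht)
    by_cases hA : t⁻¹ ∈ A
    · rw [FA _ hA]
      have := hst _ hA t ht
      rw [inv_mul_cancel₀ hne, sub_self, sign_zero] at this
      have h5 := sub_eq_zero.1 (sign_eq_zero_iff.1 this)
      exact eq_inv_of_mul_eq_one_left h5
    · simp only [hF]
      rw [if_neg hA, inv_inv]
  have sAT : ∀ s ∈ A, ∀ t ∈ T, SignType.sign (f s - (h t)⁻¹) = SignType.sign (s - t⁻¹) := by
    intro s hs t ht
    have hne : t ≠ 0 := fun e => hT0 (e ▸ ht)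
    have hne' : h t ≠ 0 := fun e => hT0' (e ▸ h1 t ht)
    have e1 : s - t⁻¹ = (s * t - 1) * t⁻¹ := by field_simp
    have e2 : f s - (h t)⁻¹ = (f s * h t - 1) * (h t)⁻¹ := by field_simp
    rw [e1, e2, sign_mul, sign_mul, hst s hs t ht, sg_inv, sg_inv, sgT t ht]
  have sTA : ∀ s ∈ A, ∀ t ∈ T, SignType.sign ((h t)⁻¹ - f s) = SignType.sign (t⁻¹ - s) := by
    intro s hs t ht
    have e1 : t⁻¹ - s = -(s - t⁻¹) := by ring
    have e2 : (h t)⁻¹ - f s = -(f s - (h t)⁻¹) := by ring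
    rw [e1, e2, Left.sign_neg, Left.sign_neg, sAT s hs t ht]
  have sTT : ∀ t ∈ T, ∀ t' ∈ T, SignType.sign ((h t)⁻¹ - (h t')⁻¹) =
      SignType.sign (t⁻¹ - t'⁻¹) := by
    intro t ht t' ht'
    have hne : t ≠ 0 := fun e => hT0 (e ▸ ht)
    have hne' : h t ≠ 0 := fun e => hT0' (e ▸ h1 t ht)
    have hne2 : t' ≠ 0 := fun e => hT0 (e ▸ ht')
    have hne2' : h t' ≠ 0 := fun e => hT0' (e ▸ h1 t' ht')
    have e1 : t⁻¹ - t'⁻¹ = (t' - t) * (t⁻¹ * t'⁻¹) := by field_simp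
    have e2 : (h t)⁻¹ - (h t')⁻¹ = (h t' - h t) * ((h t)⁻¹ * (h t')⁻¹) := by field_simp
    rw [e1, e2, sign_mul, sign_mul, sign_mul, sign_mul, mono_sign h3 ht' ht, sg_inv, sg_inv,
      sg_inv, sg_inv, sgT t ht, sgT t' ht']
  have hs : ∀ x ∈ posns A T, ∀ y ∈ posns A T,
      SignType.sign (F x - F y) = SignType.sign (x - y) := by
    intro x hx y hy
    rcases mem_pos.1 hx with hx | ⟨t, ht, rfl⟩ <;> rcases mem_pos.1 hy with hy | ⟨t', ht', rfl⟩
    · rw [FA x hx, FA y hy, mono_sign f3 hx hy]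
    · rw [FA x hx, FT t' ht', sAT x hx t' ht']
    · rw [FA y hy, FT t ht, sTA y hy t ht]
    · rw [FT t ht, FT t' ht', sTT t ht t' ht']
  have hm : ∀ x ∈ posns A T, F x ∈ posns A' T' := by
    intro x hx
    rcases mem_pos.1 hx with hx | ⟨t, ht, rfl⟩
    · rw [FA x hx]
      exact mem_pos.2 (Or.inl (f1 x hx))
    · rw [FT t ht]
      exact mem_pos.2 (Or.inr ⟨h t, h1 t ht, rfl⟩)
  have ho : ∀ y ∈ posns A' T', ∃ x ∈ posns A T, F x = y := by
    intro y hy
    rcases mem_pos.1 hy with hy | ⟨t', ht', rfl⟩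
    · obtain ⟨s, hs, rfl⟩ := f2 y hy
      exact ⟨s, mem_pos.2 (Or.inl hs), FA s hs⟩
    · obtain ⟨t, ht, rfl⟩ := h2 t' ht'
      exact ⟨t⁻¹, mem_pos.2 (Or.inr ⟨t, ht, rfl⟩), FT t ht⟩
  have hl : ∀ x ∈ posns A T, lett A' T' (F x) = lett A T x := by
    intro x hx
    unfold lett
    have i1 : F x ∈ A' ↔ x ∈ A := by
      constructor
      · intro hx'
        obtain ⟨s, hs', hfs⟩ := f2 _ hx'
        have e := hs x hx s (mem_pos.2 (Or.inl hs'))
        rw [FA s hs', hfs, sub_self, sign_zero] at e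
        have := sub_eq_zero.1 (sign_eq_zero_iff.1 e.symm)
        rw [this]
        exact hs'
      · intro hx'
        rw [FA x hx']
        exact f1 x hx'
    have i2 : (F x)⁻¹ ∈ T' ↔ x⁻¹ ∈ T := by
      constructor
      · intro hx'
        obtain ⟨t, ht, hht⟩ := h2 _ hx'
        have e := hs x hx t⁻¹ (mem_pos.2 (Or.inr ⟨t, ht, rfl⟩))
        rw [FT t ht, hht, inv_inv, sub_self, sign_zero] at e
        have := sub_eq_zero.1 (sign_eq_zero_iff.1 e.symm)
        rw [this, inv_inv]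
        exact ht
      · intro hx'
        have := FT x⁻¹ hx'
        rw [inv_inv] at this
        rw [this, inv_inv]
        exact h1 _ hx'
    simp only [i1, i2]
  have hz : ∀ x ∈ posns A T, SignType.sign (F x) = SignType.sign x := by
    intro x hx
    rcases mem_pos.1 hx with hx | ⟨t, ht, rfl⟩
    · rw [FA x hx, sgA x hx]
    · rw [FT t ht, sg_inv, sg_inv, sgT t ht]
  have ho1 : ∀ x ∈ posns A T, SignType.sign (F x - 1) = SignType.sign (x - 1) := by
    intro x hx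
    rcases mem_pos.1 hx with hx | ⟨t, ht, rfl⟩
    · rw [FA x hx, hf1 x hx]
    · rw [FT t ht]
      have hne : t ≠ 0 := fun e => hT0 (e ▸ ht)
      have hne' : h t ≠ 0 := fun e => hT0' (e ▸ h1 t ht)
      have e1 : t⁻¹ - 1 = -(t - 1) * t⁻¹ := by field_simp; ring
      have e2 : (h t)⁻¹ - 1 = -(h t - 1) * (h t)⁻¹ := by field_simp; ring
      rw [e1, e2, sign_mul, sign_mul, Left.sign_neg, Left.sign_neg, hh1 t ht, sg_inv, sg_inv,
        sgT t ht]
  have lt0 : ∀ x ∈ posns A T, F x < 0 ↔ x < 0 := by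
    intro x hx
    rw [← sign_eq_neg_one_iff, ← sign_eq_neg_one_iff, hz x hx]
  have gt0 : ∀ x ∈ posns A T, 0 < F x ↔ 0 < x := by
    intro x hx
    rw [← sign_eq_one_iff, ← sign_eq_one_iff, hz x hx]
  have lt1 : ∀ x ∈ posns A T, F x < 1 ↔ x < 1 := by
    intro x hx
    rw [← sub_neg, ← sub_neg (a := x), ← sign_eq_neg_one_iff, ← sign_eq_neg_one_iff, ho1 x hx]
  have gt1 : ∀ x ∈ posns A T, 1 < F x ↔ 1 < x := by
    intro x hx
    rw [← sub_pos, ← sub_pos (a := x), ← sign_eq_one_iff, ← sign_eq_one_iff, ho1 x hx]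
  refine ⟨?_, ?_, ?_⟩
  · exact word_eq F hs hm ho hl _ fun x hx => lt0 x hx
  · refine word_eq F hs hm ho hl _ fun x hx => ?_
    rw [Set.mem_Ioo, Set.mem_Ioo, gt0 x hx, lt1 x hx]
  · exact word_eq F hs hm ho hl _ fun x hx => gt1 x hx

end Pool.Agent.W382.C6.Read
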